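import Pool.Agent.Work.MP_cb6225_lc.Z.Fin

/-! For a language with a central word, expressibility by word equations, regular constraints and
conditions on the lengths reduces to regular languages and sets of lengths. -/

namespace Pool.Agent.Results.MP_cb6225_lc.CentralWord

open Pool.Agent.Work.MP_cb6225_lc Pool.Agent.Work.MP_cb6225_lc.Z

theorem result (α : Type) [Finite α] (Λ : Set (Set (ℕ → ℕ))) (hΛ : LenClass Λ) (L : Language α)
    (z : List α) (hz : z ≠ [])
    (central : ∀ x u y : List α, x ++ z ++ u ++ y ∈ L ↔ x ++ u ++ z ++ y ∈ L) :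
    (∃ N, Expressible Λ (Quo L z N)) ↔
      ∃ (N n : ℕ) (R K : Fin n → Language α), (∀ i, (R i).IsRegular ∧ Expressible Λ (K i)) ∧
        ∀ w, w ∈ Quo L z N ↔ ∃ i, w ∈ R i ∧ ∃ u ∈ K i, u.length = w.length :=
  central_main hΛ L z hz central

end Pool.Agent.Results.MP_cb6225_lc.CentralWord
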