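import Pool.Agent.Work.MP_cb6225_lc.P.Hcl

/-! In the syntactic monoid of a language expressible by word equations, regular constraints and
conditions on the lengths, every H-class in the sense of Green is finite. -/

namespace Pool.Agent.Results.MP_cb6225_lc.HFinite

open Pool.Agent.Work.MP_cb6225_lc

theorem result (α : Type) (Λ : Set (Set (ℕ → ℕ))) (L : Language α) (hL : Expressible Λ L)
    (s : List α) :
    ∃ R : Set (List α), R.Finite ∧ ∀ t : List α,
      (∃ a b c d : List α, Cong L t (s ++ a) ∧ Cong L s (t ++ b) ∧ Cong L t (c ++ s) ∧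
        Cong L s (d ++ t)) → ∃ r ∈ R, Cong L t r :=
  h_finite hL s

end Pool.Agent.Results.MP_cb6225_lc.HFinite
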