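import Pool.Agent.Work.MP_cb6225_lc.P.Pump

/-! For a language expressible by word equations, regular constraints and conditions on the lengths,
the products of finitely many nonempty words fall into finitely many syntactic classes if and only
if the long products can be pumped inside their classes. -/

namespace Pool.Agent.Results.MP_cb6225_lc.PumpFinite

open Pool.Agent.Work.MP_cb6225_lc

theorem result (α : Type) (Λ : Set (Set (ℕ → ℕ))) (L : Language α) (hL : Expressible Λ L)
    (W : Set (List α)) (hW : W.Finite) (h0 : [] ∉ W) :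
    (∃ R : Set (List α), R.Finite ∧ ∀ B : List (List α), (∀ w ∈ B, w ∈ W) →
      ∃ r ∈ R, Cong L B.flatten r) ↔
    ∃ N : ℕ, ∀ B : List (List α), (∀ w ∈ B, w ∈ W) → B.length = N → Pumps L B.flatten ∨
      ∃ (x y : List α) (B' : List (List α)), x ++ y ≠ [] ∧ (∀ w ∈ B', w ∈ W) ∧ B'.length = N ∧
        Cong L B.flatten (x ++ B'.flatten ++ y) := by
  simp only [pumps_iff]
  constructor
  · rintro ⟨R, hR, h⟩
    obtain ⟨N, hN⟩ := pump_of_finite h0 hR h
    exact ⟨N, fun B a b => Or.inl (hN B a b)⟩
  · rintro ⟨N, hN⟩
    have := hW.to_subtype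
    obtain ⟨l, hl⟩ := short_of_pump hL (fun u : List W => (u.map Subtype.val).flatten)
      (fun u v => by rw [List.map_append, List.flatten_append]) N
      (pump_of_nest _ N fun u hu => by
        refine (hN (u.map Subtype.val) (by simp; tauto) (by simpa using hu)).imp_right ?_
        rintro ⟨x, y, B, a, b, c, d⟩
        lift B to List W using b
        exact ⟨x, y, B, a, by simpa using c, d⟩)
    refine ⟨_, (List.finite_length_le W l).image fun u : List W => (u.map Subtype.val).flatten,
      fun B hB => ?_⟩
    lift B to List W using hB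
    obtain ⟨u, a, b⟩ := hl B
    exact ⟨_, ⟨u, a, rfl⟩, b⟩

end Pool.Agent.Results.MP_cb6225_lc.PumpFinite
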